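import Pool.Agent.H.MP_9100ee_an.A

set_option autoImplicit false

namespace Pool.Agent.Results.MP_9100ee_an.Weight
open Metric

noncomputable abbrev H2 := lp (fun _ : ℕ => ℂ) 2

noncomputable def ev (f : H2) (z : ℂ) : ℂ := ∑' n, f n * z ^ n

def Nrm {V : Type} [NormedAddCommGroup V] [InnerProductSpace ℂ V] [CompleteSpace V] (T : V →L[ℂ] V) : Prop :=
  IsStarNormal T

def NormalWco (V : Type) [NormedAddCommGroup V] [InnerProductSpace ℂ V] [CompleteSpace V] (e : V → ℂ → ℂ)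
    (ψ φ : ℂ → ℂ) : Prop :=
  ∃ T : V →L[ℂ] V, (∀ f, ∀ z ∈ ball (0 : ℂ) 1, e (T f) z = ψ z * e f (φ z)) ∧ Nrm T

theorem result (ψ φ : ℂ → ℂ) (_hψ : DifferentiableOn ℂ ψ (ball 0 1)) (a b c d : ℂ) (h : a * d - b * c ≠ 0)
    (hφ : ∀ z ∈ ball (0 : ℂ) 1, c * z + d ≠ 0 ∧ φ z = (a * z + b) / (c * z + d))
    (hm : Set.MapsTo φ (ball 0 1) (ball 0 1)) (hW : NormalWco H2 ev ψ φ) :
    ∃ s : ℂ, ∀ z ∈ ball (0 : ℂ) 1, ψ z = s / (c * z + d) := by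
  obtain ⟨T, hT, hN⟩ := hW
  obtain ⟨s, hs⟩ := Pool.Agent.H.MP_9100ee_an.main h (fun z hz => (hφ z (mem_ball_zero_iff.2 hz)).1)
    (fun z hz => (hφ z (mem_ball_zero_iff.2 hz)).2) (fun z hz => mem_ball_zero_iff.1 (hm (mem_ball_zero_iff.2 hz)))
    (fun f z hz => hT f z (mem_ball_zero_iff.2 hz)) hN
  exact ⟨s, fun z hz => hs z (mem_ball_zero_iff.1 hz)⟩

end Pool.Agent.Results.MP_9100ee_an.Weight
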